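import Pool.Agent.H57.UGB.Defs
import Pool.Agent.H37.UG.Form

/-!
# Slanted vector fields of the first kind
-/

set_option autoImplicit false

open MvPolynomial

namespace Pool.Agent.H37.UGB

open Pool.Agent.H37.UG Pool.Agent.H57.UGB

/-- The filtration by the weight. -/
def fil (n k c : ℕ) : AddSubgroup (JR n k) where
  carrier := {P | Dg c P}
  add_mem' := by
    intro P Q hP hQ m hm
    rw [coeff_add] at hm
    by_cases h : coeff m P = 0
    · rw [h, zero_add] at hm
      exact hQ m hm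
    · exact hP m h
  zero_mem' := by
    intro m hm
    rw [coeff_zero] at hm
    exact absurd rfl hm
  neg_mem' := by
    intro P hP m hm
    rw [coeff_neg, neg_ne_zero] at hm
    exact hP m hm

theorem mem_fil {n k c : ℕ} {P : JR n k} : P ∈ fil n k c ↔ Dg c P := Iff.rfl

theorem fil_isFilt (n k : ℕ) : IsFilt (fil n k) where
  mono := by
    intro c c' hc P hP m hm
    exact (hP m hm).trans hc
  one := by
    classical
    intro m hm
    rw [coeff_one] at hm
    split_ifs at hm with h
    · rw [← h, map_zero]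
    · exact absurd rfl hm
  mul := by
    classical
    intro P Q e f hP hQ m hm
    rw [coeff_mul] at hm
    obtain ⟨x, hx, hne⟩ := Finset.exists_ne_zero_of_sum_ne_zero hm
    have h1 := hP x.1 (left_ne_zero_of_mul hne)
    have h2 := hQ x.2 (right_ne_zero_of_mul hne)
    have h3 : x.1 + x.2 = m := Finset.HasAntidiagonal.mem_antidiagonal.1 hx
    rw [← h3, map_add]
    omega

theorem fil_C {n k : ℕ} (c : ℂ) : (C c : JR n k) ∈ fil n k 0 := by
  classical
  intro m hm
  rw [coeff_C] at hm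
  split_ifs at hm with h
  · rw [← h, map_zero]
  · exact absurd rfl hm

theorem fil_X {n k : ℕ} (v : Vr n k) : (X v : JR n k) ∈ fil n k (wv n k v) := by
  classical
  intro m hm
  rw [coeff_X] at hm
  split_ifs at hm with h
  · rw [← h, Finsupp.weight_single]
    simp
  · exact absurd rfl hm

/-- The universal jet with `x_0 = 1`. -/
noncomputable def ux (n k : ℕ) : Fin (n + 2) → PowerSeries (JR n k) := Function.update (uy n k) 0 1

theorem ux_zero (n k : ℕ) : ux n k 0 = 1 := Function.update_self _ _ _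

theorem ux_ne {n k : ℕ} {j : Fin (n + 2)} (hj : j ≠ 0) : ux n k j = uy n k j := Function.update_of_ne hj _ _

theorem good_uy {n k : ℕ} (j : Fin (n + 2)) : IsFilt.Good (fil n k) 1 1 (uy n k j) := by
  intro s
  unfold uy
  rw [PowerSeries.coeff_mk]
  split_ifs with h
  · have := fil_X (n := n) (k := k) (Sum.inr (j, ⟨s, h⟩))
    simpa [wv] using this
  · exact (fil n k _).zero_mem

theorem good_ux {n k : ℕ} (j : Fin (n + 2)) : IsFilt.Good (fil n k) 1 1 (ux n k j) := by
  by_cases hj : j = 0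
  · subst hj
    rw [ux_zero]
    exact (fil_isFilt n k).good_one 1 1
  · rw [ux_ne hj]
    exact good_uy j

theorem coeff_one_uy {n k : ℕ} (hk : 1 ≤ k) (l : Fin (n + 2)) :
    PowerSeries.coeff 1 (uy n k l) = X (Sum.inr (l, ⟨1, by omega⟩)) := by
  unfold uy
  rw [PowerSeries.coeff_mk, dif_pos (by omega)]

theorem coeff_one_uy_ne {n k : ℕ} (hk : 1 ≤ k) (l : Fin (n + 2)) : PowerSeries.coeff 1 (uy n k l) ≠ 0 := by
  rw [coeff_one_uy hk]
  exact X_ne_zero _

/-- `t^s₀ x(t)^ν`, times `y^(2k)`, as the value of a form of degree `|ν| + e`. -/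
theorem exists_formU {n k : ℕ} (hk : 1 ≤ k) {l : Fin (n + 2)} (hl : l ≠ 0) (s₀ e : ℕ) (ν : Fin (n + 2) → ℕ)
    (hν : k ≤ ∑ i, ν i) : ∃ H : MvPolynomial (Fin (n + 2)) (JR n k), H.IsHomogeneous (∑ i, ν i + e) ∧
      GoodP (fil n k) (5 * k) H ∧ ∀ s ≤ k, PowerSeries.coeff s (eval₂ PowerSeries.C (ux n k) H) =
        PowerSeries.coeff s (PowerSeries.C (PowerSeries.coeff 1 (uy n k l) ^ (2 * k)) *
          (PowerSeries.X ^ s₀ * ∏ j, ux n k j ^ ν j)) := by
  have h1 : PowerSeries.coeff 1 (ux n k l) ≠ 0 := by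
    rw [ux_ne hl]
    exact coeff_one_uy_ne hk l
  have h2 := exists_form (fil_isFilt n k) (ux_zero n k) good_ux l h1 k s₀ e ν hν
  rwa [ux_ne hl] at h2

theorem aeval_gen {R : Type} [CommRing R] (n d : ℕ) (a : (Fin (n + 2) →₀ ℕ) → R)
    (x : Fin (n + 2) → PowerSeries R) : aeval x (gen n d a) =
      ∑ μ ∈ (Finset.univ : Finset (Fin (n + 2))).finsuppAntidiag d, PowerSeries.C (a μ) * ∏ i, x i ^ μ i := by
  unfold gen
  rw [map_sum]
  refine Finset.sum_congr rfl fun μ _ => ?_
  rw [aeval_monomial, Finsupp.prod_fintype _ _ (fun i => pow_zero _)]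
  rfl

/-- The derivative of the equation when only the coordinate `j` moves. -/
theorem mapDer_gen {R : Type} [CommRing R] [Algebra ℂ R] (n d : ℕ) (V : Derivation ℂ R R)
    (a : (Fin (n + 2) →₀ ℕ) → R) (x : Fin (n + 2) → PowerSeries R) (j : Fin (n + 2)) (y : PowerSeries R)
    (h1 : mapDer V (x j) = y) (h2 : ∀ i, i ≠ j → mapDer V (x i) = 0) : mapDer V (aeval x (gen n d a)) =
      ∑ μ ∈ (Finset.univ : Finset (Fin (n + 2))).finsuppAntidiag d,
        (PowerSeries.C (V (a μ)) * ∏ i, x i ^ μ i + PowerSeries.C (a μ) * (((μ j : PowerSeries R) *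
          (x j ^ (μ j - 1) * ∏ i ∈ Finset.univ.erase j, x i ^ μ i)) * y)) := by
  classical
  rw [aeval_gen, map_sum]
  refine Finset.sum_congr rfl fun μ _ => ?_
  rw [Derivation.leibniz, mapDer_C, der_prod_pow (mapDer V) x (fun i => μ i), Finset.sum_eq_single j, h1,
    smul_eq_mul, smul_eq_mul]
  · ring
  · intro i _ hi
    rw [h2 i hi, mul_zero]
  · intro h
    exact absurd (Finset.mem_univ j) h

theorem map_uy {n k : ℕ} {R : Type} [CommRing R] [Algebra ℂ R] (a : (Fin (n + 2) →₀ ℕ) → R)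
    (y : Fin (n + 2) → PowerSeries R) (hy : y 0 = 1) (i : Fin (n + 2)) :
    PowerSeries.map ((pt a y : JR n k →ₐ[ℂ] R) : JR n k →+* R) (uy n k i) =
      PowerSeries.map ((pt a y : JR n k →ₐ[ℂ] R) : JR n k →+* R) (ux n k i) := by
  by_cases hi : i = 0
  · subst hi
    rw [ux_zero, map_one]
    ext s
    rw [PowerSeries.coeff_map]
    unfold uy
    rw [PowerSeries.coeff_mk]
    split_ifs with h
    · have : ((pt a y : JR n k →ₐ[ℂ] R) : JR n k →+* R) (X (Sum.inr (0, ⟨s, h⟩))) = PowerSeries.coeff s (y 0) := by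
        unfold pt
        simp
      rw [this, hy]
    · rw [map_zero, PowerSeries.coeff_one, if_neg (by omega)]
  · rw [ux_ne hi]

end Pool.Agent.H37.UGB

namespace Pool.Agent.H57.UGB

open Pool.Agent.H37.UG Pool.Agent.H37.UGB

theorem fld1 (n d k : ℕ) (hk : 1 ≤ k) (hd : k + 1 ≤ d) (l : Fin (n + 2)) (hl : l ≠ 0) (j : Fin (n + 2))
    (hj : j ≠ 0) (s0 : Fin (k + 1)) (hs : s0 ≠ 0) :
    ∃ V : Derivation ℂ (JR n k) (JR n k), IsFld n d k V ∧
      (∀ v : Fin (n + 2) × Fin (k + 1),
        V (X (Sum.inr v)) = if v = (j, s0) then PowerSeries.coeff 1 (uy n k l) ^ (2 * k) else 0) ∧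
      ∀ α ∉ (Finset.univ : Finset (Fin (n + 2))).finsuppAntidiag d, V (X (Sum.inl α)) = 0 := by
  classical
  set Y : JR n k := PowerSeries.coeff 1 (uy n k l) ^ (2 * k) with hY
  set S := (Finset.univ : Finset (Fin (n + 2))).finsuppAntidiag d with hS
  -- the forms
  have hex : ∀ α : Fin (n + 2) →₀ ℕ, ∃ H : MvPolynomial (Fin (n + 2)) (JR n k), H.IsHomogeneous d ∧
      GoodP (fil n k) (5 * k) H ∧ (α ∈ S → α j ≠ 0 → ∀ s ≤ k,
        PowerSeries.coeff s (eval₂ PowerSeries.C (ux n k) H) =
          PowerSeries.coeff s ((ux n k j ^ (α j - 1) * ∏ i ∈ Finset.univ.erase j, ux n k i ^ α i) *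
            (PowerSeries.C Y * PowerSeries.X ^ (s0 : ℕ)))) := by
    intro α
    by_cases hα : α ∈ S ∧ α j ≠ 0
    · have hsum : ∑ i, α i = d := by
        have := (Finset.mem_finsuppAntidiag.1 hα.1).1
        simpa using this
      have hsum2 : ∑ i, Function.update (⇑α) j (α j - 1) i + 1 = d := by
        rw [← Finset.add_sum_erase _ _ (Finset.mem_univ j), Function.update_self]
        have h1 : ∑ i ∈ Finset.univ.erase j, Function.update (⇑α) j (α j - 1) i =
            ∑ i ∈ Finset.univ.erase j, α i :=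
          Finset.sum_congr rfl fun i hi => Function.update_of_ne (Finset.ne_of_mem_erase hi) _ _
        rw [h1]
        have h2 := Finset.add_sum_erase Finset.univ (fun i => α i) (Finset.mem_univ j)
        have h3 := hα.2
        omega
      obtain ⟨H, h1, h2, h3⟩ := exists_formU hk hl (s0 : ℕ) 1 (Function.update (⇑α) j (α j - 1)) (by omega)
      rw [hsum2] at h1
      refine ⟨H, h1, h2, fun _ _ s hs' => ?_⟩
      rw [h3 s hs']
      refine congrArg (PowerSeries.coeff s) ?_
      rw [← Finset.mul_prod_erase _ _ (Finset.mem_univ j), Function.update_self]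
      have h4 : ∏ i ∈ Finset.univ.erase j, ux n k i ^ Function.update (⇑α) j (α j - 1) i =
          ∏ i ∈ Finset.univ.erase j, ux n k i ^ α i :=
        Finset.prod_congr rfl fun i hi => by rw [Function.update_of_ne (Finset.ne_of_mem_erase hi)]
      rw [h4]
      ring
    · refine ⟨0, isHomogeneous_zero _ _ _, GoodP.zero _, fun h1 h2 => absurd ⟨h1, h2⟩ hα⟩
  choose H hH1 hH2 hH3 using hex
  set c : (Fin (n + 2) →₀ ℕ) → JR n k := fun μ => -∑ α ∈ S, (α j : JR n k) * ua n k α * coeff μ (H α) with hc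
  set V : Derivation ℂ (JR n k) (JR n k) := mkDerivation ℂ (Sum.elim c fun v => if v = (j, s0) then Y else 0)
    with hV
  have hVl : ∀ μ, V (X (Sum.inl μ)) = c μ := fun μ => by rw [hV, mkDerivation_X]; rfl
  have hVr : ∀ v, V (X (Sum.inr v)) = if v = (j, s0) then Y else 0 := fun v => by rw [hV, mkDerivation_X]; rfl
  have hf := fil_isFilt n k
  have hYd : Y ∈ fil n k (5 * k) := by
    have h1 : PowerSeries.coeff 1 (uy n k l) ∈ fil n k 2 := by simpa using good_uy (n := n) (k := k) l 1
    exact hf.mono (by omega) (hf.pow h1 (2 * k))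
  have hder : ∀ i, mapDer V (uy n k i) = if i = j then PowerSeries.C Y * PowerSeries.X ^ (s0 : ℕ) else 0 := by
    intro i
    refine PowerSeries.ext fun s => ?_
    rw [coeff_mapDer]
    have h0 : PowerSeries.coeff s (if i = j then PowerSeries.C Y * PowerSeries.X ^ (s0 : ℕ) else 0) =
        if i = j ∧ s = (s0 : ℕ) then Y else 0 := by
      by_cases hij : i = j
      · rw [if_pos hij, PowerSeries.coeff_C_mul, PowerSeries.coeff_X_pow]
        by_cases hss : s = (s0 : ℕ)
        · rw [if_pos hss, if_pos ⟨hij, hss⟩, mul_one]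
        · rw [if_neg hss, if_neg (fun h => hss h.2), mul_zero]
      · rw [if_neg hij, map_zero, if_neg (fun h => hij h.1)]
    rw [h0]
    unfold uy
    rw [PowerSeries.coeff_mk]
    split_ifs with h1 h2 h2
    · rw [hVr, if_pos]
      rw [Prod.mk.injEq]
      exact ⟨h2.1, Fin.ext h2.2⟩
    · rw [hVr, if_neg]
      intro h3
      rw [Prod.mk.injEq] at h3
      exact h2 ⟨h3.1, congrArg Fin.val h3.2⟩
    · exact absurd (h2.2 ▸ s0.isLt) h1
    · exact map_zero V
  refine ⟨V, ⟨?_, ?_, ?_, ?_⟩, hVr, ?_⟩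
  · rintro (μ | v)
    · rw [hVl, ← mem_fil, hc]
      refine AddSubgroup.neg_mem _ (AddSubgroup.sum_mem _ fun α _ => ?_)
      have h1 : ua n k α ∈ fil n k 0 := fil_X (n := n) (k := k) (Sum.inl α)
      have h2 := hf.mul (hf.mul (hf.nat (α j)) h1) (hH2 α μ)
      simpa using h2
    · rw [hVr, ← mem_fil]
      split_ifs
      · exact hYd
      · exact (fil n k _).zero_mem
  · intro i
    rw [hVr, if_neg]
    intro h
    rw [Prod.mk.injEq] at h
    exact hs h.2.symm
  · intro s
    rw [hVr, if_neg]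
    intro h
    rw [Prod.mk.injEq] at h
    exact hj h.1.symm
  · intro s hs' R _ _ a y hy
    have h1 : V (Fc n d k s) = PowerSeries.coeff s (mapDer V (aeval (uy n k) (gen n d (ua n k)))) := by
      rw [coeff_mapDer]
      rfl
    rw [h1, mapDer_gen n d V (ua n k) (uy n k) j (PowerSeries.C Y * PowerSeries.X ^ (s0 : ℕ))
      (by rw [hder, if_pos rfl]) (fun i hi => by rw [hder, if_neg hi])]
    have h2 := cancel_core (d := d) (ux n k) j k (ua n k) (PowerSeries.C Y * PowerSeries.X ^ (s0 : ℕ)) H hH1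
      (fun α hα hα' s hs => hH3 α hα hα' s hs) s hs'
    exact map_core ((pt a y : JR n k →ₐ[ℂ] R) : JR n k →+* R) S (uy n k) (ux n k) (map_uy a y hy)
      (fun μ => V (ua n k μ)) c (ua n k) hVl j _ s h2
  · intro α hα
    rw [hVl, hc]
    change -∑ β ∈ S, (β j : JR n k) * ua n k β * coeff α (H β) = 0
    rw [neg_eq_zero]
    refine Finset.sum_eq_zero fun β _ => ?_
    have h1 : coeff α (H β) = 0 := by
      by_contra hne
      have h2 := hH1 β hne
      apply hα
      rw [hS, Finset.mem_finsuppAntidiag]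
      refine ⟨?_, Finset.subset_univ _⟩
      rw [Finsupp.weight_apply, Finsupp.sum_fintype _ _ (fun i => by simp)] at h2
      simpa using h2
    rw [h1, mul_zero]

end Pool.Agent.H57.UGB
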